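import Pool.Agent.helper99.EP.Spec

set_option autoImplicit false

namespace Pool.Agent.EP

open Finset Pool.Agent.helper85.FC Pool.Agent.OM Pool.Agent.helper11.TX Pool.Agent.AT

theorem EVD_cop {x y : ℤ} (h : ∀ l : ℕ, l.Prime → (l : ℤ) ∣ x → ¬ (l : ℤ) ∣ y) : IsCoprime x y := by
  rw [Int.isCoprime_iff_gcd_eq_one]
  by_contra hne
  obtain ⟨l, hl, hd⟩ := Nat.exists_prime_and_dvd hne
  have h1 : (l : ℤ) ∣ x := (Int.natCast_dvd_natCast.mpr hd).trans (Int.gcd_dvd_left _ _)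
  have h2 : (l : ℤ) ∣ y := (Int.natCast_dvd_natCast.mpr hd).trans (Int.gcd_dvd_right _ _)
  exact h l hl h1 h2

theorem EVD_sol {l : ℕ} (hl : l.Prime) {s t : ℤ} (hs : ¬ (l : ℤ) ∣ s) : ∃ β : ℤ, (l : ℤ) ∣ s * β - t := by
  have hp : Prime (l : ℤ) := Nat.prime_iff_prime_int.mp hl
  have hc : IsCoprime (l : ℤ) s := (hp.coprime_iff_not_dvd).mpr hs
  obtain ⟨u, v, huv⟩ := hc
  refine ⟨v * t, -(u * t), ?_⟩
  linear_combination t * huv

theorem EVD_sqrt (a b : ℕ) (C : ℕ) : (C : ℝ) * √((a * b : ℕ) : ℝ) ≤ C * (a + b) := by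
  apply mul_le_mul_of_nonneg_left _ (Nat.cast_nonneg C)
  have ha : (0 : ℝ) ≤ a := Nat.cast_nonneg a
  have hb : (0 : ℝ) ≤ b := Nat.cast_nonneg b
  rw [Real.sqrt_le_left (by positivity)]
  push_cast
  nlinarith

/-- the core, with all the local conditions known -/
theorem EVD_core (κ : ℕ) (V : Finset (ℕ × ℤ))
    (hD : ∀ (a b : ℕ) (h m' : ℤ), 1 ≤ a → FU (2 * κ) (b, h) →
      (∀ v ∈ V, FU (2 * κ) (v.1 * a, v.1 * m' + v.2)) → ∀ N : ℕ, ∃ n : ℕ, N ≤ n ∧ 0 ≤ (a : ℤ) * n + m' ∧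
      ((b : ℤ) * n + h).toNat.Prime ∧
      1 ≤ #{v ∈ V | ((v.1 : ℤ) * (a * n + m') + v.2).toNat.Prime ∧ (v.1 : ℤ) * (a * n + m') + v.2 ≠ b * n + h})
    (a b : ℕ) (ha : 1 ≤ a) (hb : 1 ≤ b) (c h h' : ℤ) (hc : (a : ℤ) * h - b * h' = c)
    (hw : FU (2 * κ) (b, h)) (hσ : ∀ v ∈ V, FU (2 * κ) (v.1 * a, v.1 * h' + v.2)) :
    ∃ v ∈ V, (v.1 : ℤ) * c - b * v.2 ≠ 0 ∧
    {pq : ℕ × ℕ | pq.1.Prime ∧ pq.2.Prime ∧ ((v.1 * a : ℕ) : ℤ) * pq.1 - b * pq.2 = v.1 * c - b * v.2}.Infinite := by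
  have hb' : (1 : ℤ) ≤ b := by exact_mod_cast hb
  let A : ℕ × ℤ → Set ℕ := fun v => {n : ℕ | ((b : ℤ) * n + h).toNat.Prime ∧
    ((v.1 : ℤ) * (a * n + h') + v.2).toNat.Prime ∧ (v.1 : ℤ) * (a * n + h') + v.2 ≠ b * n + h ∧ (b : ℤ) < b * n + h}
  have hinf : ∃ v ∈ V, (A v).Infinite := by
    by_contra hcon
    push Not at hcon
    have hfin : (⋃ v ∈ V, A v).Finite := by
      apply Set.Finite.biUnion V.finite_toSet
      intro v hv
      have := hcon v hv
      simpa using this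
    obtain ⟨N₀, hN₀⟩ := hfin.bddAbove
    obtain ⟨n, hn, -, hp, hcard⟩ := hD a b h h' ha hw hσ (N₀ + 1 + (h.natAbs + 2))
    obtain ⟨v, hv⟩ := Finset.card_pos.mp (Nat.lt_of_lt_of_le Nat.zero_lt_one hcard)
    rw [Finset.mem_filter] at hv
    have hmem : n ∈ ⋃ v ∈ V, A v := by
      rw [Set.mem_iUnion₂]
      refine ⟨v, hv.1, hp, hv.2.1, hv.2.2, ?_⟩
      have h1 : ((N₀ + 1 + (h.natAbs + 2) : ℕ) : ℤ) ≤ n := by exact_mod_cast hn
      push_cast at h1
      have h2 : -(h.natAbs : ℤ) ≤ h := by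
        rw [Int.natCast_natAbs]
        exact neg_abs_le h
      have h3 : (0 : ℤ) ≤ N₀ := Int.natCast_nonneg _
      have h4 : (0 : ℤ) ≤ (h.natAbs : ℤ) := Int.natCast_nonneg _
      rw [← Int.natCast_natAbs] at h1
      nlinarith
    have := hN₀ hmem
    omega
  obtain ⟨v, hv, hA⟩ := hinf
  refine ⟨v, hv, ?_, ?_⟩
  · obtain ⟨n, hn⟩ := hA.nonempty
    obtain ⟨hp, hq, hne, hlt⟩ := hn
    set p : ℤ := (b : ℤ) * n + h with hpdef
    set q : ℤ := (v.1 : ℤ) * (a * n + h') + v.2 with hqdef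
    have hp0 : 0 ≤ p := by linarith
    have hq0 : 0 ≤ q := by
      by_contra hneg
      rw [Int.toNat_of_nonpos (by omega)] at hq
      exact Nat.not_prime_zero hq
    have hpp : ((p.toNat : ℕ) : ℤ) = p := Int.toNat_of_nonneg hp0
    have hqq : ((q.toNat : ℕ) : ℤ) = q := Int.toNat_of_nonneg hq0
    intro h0
    have heq : (v.1 : ℤ) * a * p = b * q := by
      have : (v.1 : ℤ) * a * p - b * q = v.1 * c - b * v.2 := by
        rw [hpdef, hqdef, ← hc]; ring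
      linarith
    have hdiv : (p.toNat : ℤ) ∣ (b : ℤ) * q := by
      rw [hpp, ← heq]
      exact Dvd.intro_left _ rfl
    have hprime : Prime (p.toNat : ℤ) := Nat.prime_iff_prime_int.mp hp
    rcases hprime.dvd_or_dvd hdiv with h1 | h1
    · have h2 : p.toNat ∣ b := by exact_mod_cast h1
      have h3 := Nat.le_of_dvd hb h2
      have h4 : p ≤ b := by rw [← hpp]; exact_mod_cast h3
      linarith
    · rw [← hqq] at h1
      have h2 : p.toNat ∣ q.toNat := by exact_mod_cast h1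
      have h3 := (Nat.prime_dvd_prime_iff_eq hp hq).mp h2
      apply hne
      rw [← hpp, ← hqq, h3]
  · apply Set.infinite_of_injOn_mapsTo (f := fun n : ℕ => (((b : ℤ) * n + h).toNat, ((v.1 : ℤ) * (a * n + h') + v.2).toNat)) (s := A v) _ _ hA
    · intro n hn m hm hnm
      obtain ⟨hp, hq, hne, hlt⟩ := hn
      obtain ⟨hp', hq', hne', hlt'⟩ := hm
      have h1 : ((b : ℤ) * n + h).toNat = ((b : ℤ) * m + h).toNat := congrArg Prod.fst hnm
      have h2 : (b : ℤ) * n + h = (b : ℤ) * m + h := by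
        rw [← Int.toNat_of_nonneg (show (0 : ℤ) ≤ (b : ℤ) * n + h by linarith),
          ← Int.toNat_of_nonneg (show (0 : ℤ) ≤ (b : ℤ) * m + h by linarith), h1]
      have h3 : (b : ℤ) * n = b * m := by linarith
      have h4 := mul_left_cancel₀ (show (b : ℤ) ≠ 0 by omega) h3
      exact_mod_cast h4
    · intro n hn
      obtain ⟨hp, hq, hne, hlt⟩ := hn
      refine ⟨hp, hq, ?_⟩
      have hq0 : 0 ≤ (v.1 : ℤ) * (a * n + h') + v.2 := by
        by_contra hneg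
        rw [Int.toNat_of_nonpos (by omega)] at hq
        exact Nat.not_prime_zero hq
      show ((v.1 * a : ℕ) : ℤ) * (((b : ℤ) * n + h).toNat : ℤ) - b * (((v.1 : ℤ) * (a * n + h') + v.2).toNat : ℤ) = v.1 * c - b * v.2
      rw [Int.toNat_of_nonneg (show (0 : ℤ) ≤ (b : ℤ) * n + h by linarith), Int.toNat_of_nonneg hq0, ← hc]
      push_cast
      ring

open Classical in
theorem EVD : EVD_stmt := by
  intro hMXF hJAC hSOL hF
  obtain ⟨κ, V, hκ, hVκ, hV, hD⟩ := hMXF hF 1 le_rfl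
  obtain ⟨C, hC⟩ := hJAC κ hκ
  refine ⟨V, C, fun v hv => (hV v hv).1, ?_⟩
  intro a b ha hb hab x
  let bt : ℕ → ℕ × ℤ → ℤ := fun l v => if hh : ∃ β : ℤ, (l : ℤ) ∣ (v.1 : ℤ) * β - b * v.2 then hh.choose else 0
  have hbt : ∀ (l : ℕ) (v : ℕ × ℤ), (∃ β : ℤ, (l : ℤ) ∣ (v.1 : ℤ) * β - b * v.2) → (l : ℤ) ∣ (v.1 : ℤ) * bt l v - b * v.2 := by
    intro l v hh
    simp only [bt, dif_pos hh]
    exact hh.choose_spec
  let B : ℕ → Finset ℤ := fun l => if l ∣ b then {0} else V.image (bt l)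
  have hBc : ∀ l, #(B l) ≤ κ := by
    intro l
    by_cases h1 : l ∣ b
    · simp only [B, if_pos h1, card_singleton]
      exact hκ
    · simp only [B, if_neg h1]
      exact card_image_le.trans hVκ
  obtain ⟨c, hxc, hcx, hPc, hcB⟩ := hC (a * b) a B (Nat.mul_pos ha hb) hBc x
  have hcx' : c ≤ x + C * ((a : ℤ) + b) := by
    have h1 := EVD_sqrt a b C
    have h2 : (c : ℝ) ≤ x + C * ((a : ℝ) + b) := by linarith
    exact_mod_cast h2
  obtain ⟨h, h', hP1, hP2, hsol⟩ := hSOL a b ((2 * κ).factorial) 1 0 c hab (by simpa using hPc)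
  have hsmall : ∀ l : ℕ, l.Prime → l ≤ 2 * κ → (l : ℤ) ∣ (((2 * κ).factorial : ℕ) : ℤ) := by
    intro l hl hle
    exact_mod_cast (Nat.Prime.dvd_factorial hl).mpr hle
  have hh1 : ∀ l : ℕ, l.Prime → l ≤ 2 * κ → ¬ (l : ℤ) ∣ h := by
    intro l hl hle hd
    have h1 := (hsmall l hl hle).trans hP1
    have h2 : (l : ℤ) ∣ 1 := by
      have := dvd_sub hd h1
      simpa using this
    exact hl.one_lt.ne' (by exact_mod_cast Int.eq_one_of_dvd_one (Int.natCast_nonneg l) h2)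
  have hh2 : ∀ l : ℕ, l.Prime → l ≤ 2 * κ → (l : ℤ) ∣ h' := by
    intro l hl hle
    have h1 := (hsmall l hl hle).trans hP2
    simpa using h1
  have hw : FU (2 * κ) (b, h) := by
    refine ⟨hb, EVD_cop ?_, hh1⟩
    intro l hl hlb hlh
    by_cases hle : l ≤ 2 * κ
    · exact hh1 l hl hle hlh
    · push Not at hle
      have hlb' : l ∣ b := by exact_mod_cast hlb
      have hmem : l ∈ (a * b).primeFactors :=
        Nat.mem_primeFactors.mpr ⟨hl, hlb'.mul_left a, (Nat.mul_pos ha hb).ne'⟩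
      have h0 : (0 : ℤ) ∈ B l := by
        simp only [B, if_pos hlb', mem_singleton]
      apply hcB l hmem hle 0 h0
      rw [sub_zero, ← hsol]
      exact dvd_sub (hlh.mul_left _) (hlb.mul_right _)
  have hσ : ∀ v ∈ V, FU (2 * κ) (v.1 * a, v.1 * h' + v.2) := by
    intro v hv
    obtain ⟨hv1, hv2, hv3⟩ := hV v hv
    have hpr : ∀ l : ℕ, l.Prime → l ≤ 2 * κ → ¬ (l : ℤ) ∣ (v.1 : ℤ) * h' + v.2 := by
      intro l hl hle hd
      apply hv3 l hl hle
      have h1 : (l : ℤ) ∣ (v.1 : ℤ) * h' := (hh2 l hl hle).mul_left _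
      have := dvd_sub hd h1
      simpa using this
    refine ⟨Nat.mul_pos hv1 ha, EVD_cop ?_, hpr⟩
    intro l hl hl1 hl2
    have hprime : Prime (l : ℤ) := Nat.prime_iff_prime_int.mp hl
    have hl1' : (l : ℤ) ∣ (v.1 : ℤ) * a := by
      simpa using hl1
    by_cases hle : l ≤ 2 * κ
    · exact hpr l hl hle hl2
    · push Not at hle
      by_cases hlv : (l : ℤ) ∣ (v.1 : ℤ)
      · have h1 : (l : ℤ) ∣ v.2 := by
          have h2 : (l : ℤ) ∣ (v.1 : ℤ) * h' := hlv.mul_right _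
          have := dvd_sub hl2 h2
          simpa using this
        have hu := hv2.isUnit_of_dvd' hlv h1
        exact hprime.not_isUnit hu
      · have hla : (l : ℤ) ∣ (a : ℤ) := (hprime.dvd_or_dvd hl1').resolve_left hlv
        have hla' : l ∣ a := by exact_mod_cast hla
        have hlb : ¬ l ∣ b := by
          intro hlb
          have := Nat.dvd_gcd hla' hlb
          rw [hab] at this
          exact hl.one_lt.ne' (Nat.dvd_one.mp this)
        have hmem : l ∈ (a * b).primeFactors :=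
          Nat.mem_primeFactors.mpr ⟨hl, hla'.mul_right b, (Nat.mul_pos ha hb).ne'⟩
        have hβ : bt l v ∈ B l := by
          simp only [B, if_neg hlb]
          exact mem_image_of_mem _ hv
        apply hcB l hmem hle (bt l v) hβ
        have hspec := hbt l v (EVD_sol hl hlv)
        have h3 : (l : ℤ) ∣ (v.1 : ℤ) * (c - bt l v) := by
          have e : (v.1 : ℤ) * (c - bt l v) = (v.1 : ℤ) * h * a - b * ((v.1 : ℤ) * h' + v.2) - ((v.1 : ℤ) * bt l v - b * v.2) := by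
            rw [← hsol]; ring
          rw [e]
          exact dvd_sub (dvd_sub (hla.mul_left _) (hl2.mul_left _)) hspec
        exact (hprime.dvd_or_dvd h3).resolve_left hlv
  obtain ⟨v, hv, hne, hinf⟩ := EVD_core κ V hD a b ha hb c h h' hsol hw hσ
  exact ⟨c, hxc, hcx', v, hv, hne, hinf⟩

end Pool.Agent.EP
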