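import Pool.Agent.helper81.EP.SpecK

set_option autoImplicit false

namespace Pool.Agent.EP

theorem KA : KA_stmt := by
  intro b hb hev
  have hex : ∃ j : ℕ, 4 ^ b ≤ 3 * (2 * j + 1) ^ 2 := by
    refine ⟨2 ^ b, ?_⟩
    have : 4 ^ b = (2 ^ b) ^ 2 := by
      rw [← pow_mul, mul_comm, pow_mul]
      norm_num
    rw [this]
    nlinarith [Nat.zero_le (2 ^ b)]
  classical
  set k := Nat.find hex with hk
  have hk1 := Nat.find_spec hex
  have hk2 : ∀ j, j < k → 3 * (2 * j + 1) ^ 2 < 4 ^ b := by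
    intro j hj
    have := Nat.find_min hex hj
    omega
  have hk3 : ∀ j, 3 * (2 * j + 1) ^ 2 < 4 ^ b → j < k := by
    intro j hj
    by_contra hcon
    push Not at hcon
    have h1 : (2 * k + 1) ^ 2 ≤ (2 * j + 1) ^ 2 := Nat.pow_le_pow_left (by omega) 2
    have h2 : 4 ^ b ≤ 3 * (2 * k + 1) ^ 2 := hk1
    omega
  have hNK : NK 1 b = k := by
    unfold NK
    have : ((Finset.range (2 ^ b)).filter fun w => w % 2 = 1 ∧ 3 * w ^ 2 < 4 ^ b ∧ 1 ∣ 4 ^ b - 3 * w ^ 2) =
        (Finset.range k).image fun j => 2 * j + 1 := by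
      ext w
      simp only [Finset.mem_filter, Finset.mem_range, Finset.mem_image]
      constructor
      · rintro ⟨-, h1, h2, -⟩
        refine ⟨w / 2, ?_, by omega⟩
        apply hk3
        have : 2 * (w / 2) + 1 = w := by omega
        rw [this]
        exact h2
      · rintro ⟨j, hj, rfl⟩
        have h1 := hk2 j hj
        refine ⟨?_, by omega, h1, one_dvd _⟩
        have h2 : 4 ^ b = (2 ^ b) ^ 2 := by
          rw [← pow_mul, mul_comm, pow_mul]
          norm_num
        rw [h2] at h1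
        by_contra hcon
        push Not at hcon
        have h3 := Nat.pow_le_pow_left hcon 2
        omega
    rw [this, Finset.card_image_of_injective _ (fun a b h => by simpa using h), Finset.card_range]
  rw [hNK] at hev
  obtain ⟨m, hm⟩ := hev
  have h4 : 4 ≤ 4 ^ b := by
    calc 4 = 4 ^ 1 := (pow_one 4).symm
      _ ≤ 4 ^ b := Nat.pow_le_pow_right (by norm_num) hb
  have hm1 : 1 ≤ m := by
    by_contra hcon
    have h0 : k = 0 := by omega
    have h2 : 4 ^ b ≤ 3 * (2 * k + 1) ^ 2 := hk1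
    rw [h0] at h2
    norm_num at h2
    omega
  refine ⟨m, hm1, ?_, ?_⟩
  · have := hk2 (k - 1) (by omega)
    have e : 2 * (k - 1) + 1 = 4 * m - 1 := by omega
    rw [e] at this
    exact this
  · have h2 : 4 ^ b ≤ 3 * (2 * k + 1) ^ 2 := hk1
    have e : 2 * k + 1 = 4 * m + 1 := by omega
    rw [e] at h2
    refine lt_of_le_of_ne h2 fun h => ?_
    have h5 : 4 ^ b % 2 = 0 := by
      obtain ⟨b', rfl⟩ := Nat.exists_eq_succ_of_ne_zero (by omega : b ≠ 0)
      rw [pow_succ]
      omega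
    rw [h] at h5
    have h6 : 3 * (4 * m + 1) ^ 2 = 2 * (24 * m ^ 2 + 12 * m + 1) + 1 := by ring
    omega

end Pool.Agent.EP
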