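import Pool.Agent.helper81.EP.SpecK

set_option autoImplicit false

namespace Pool.Agent.EP

theorem KH : KH_stmt := by
  intro J l hJ hl hinj b m hm hmb
  have key : ∃ k, l k ^ (m.factorization (l k)) < 2 ^ (b / J + 1) := by
    by_contra hcon
    push Not at hcon
    have h1 : (∏ k, l k ^ (m.factorization (l k))) ∣ m := by
      refine Finset.prod_dvd_of_isRelPrime ?_ ?_
      · intro i _ j _ hij
        have : Nat.Coprime (l i) (l j) := (Nat.coprime_primes (hl i) (hl j)).2 fun h => hij (hinj h)
        exact Nat.coprime_iff_isRelPrime.1 (Nat.Coprime.pow _ _ this)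
      · intro i _
        exact Nat.ordProj_dvd m (l i)
    have h2 : (∏ k : Fin J, 2 ^ (b / J + 1)) ≤ ∏ k, l k ^ (m.factorization (l k)) :=
      Finset.prod_le_prod' fun k _ => hcon k
    rw [Finset.prod_const, Finset.card_univ, Fintype.card_fin, ← pow_mul] at h2
    have h3 := Nat.le_of_dvd (by omega) h1
    have h4 : b ≤ (b / J + 1) * J := by
      have h5 := Nat.div_add_mod b J
      have h6 := Nat.mod_lt b (by omega : J > 0)
      have h7 : (b / J + 1) * J = J * (b / J) + J := by ring
      omega
    have h8 : 2 ^ b ≤ 2 ^ ((b / J + 1) * J) := Nat.pow_le_pow_right (by norm_num) h4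
    omega
  obtain ⟨k, hk⟩ := key
  refine ⟨k, m.factorization (l k) + 1, by omega, Nat.pow_succ_factorization_not_dvd (by omega) (hl k), ?_⟩
  rw [pow_succ, mul_comm]
  exact Nat.mul_le_mul_left _ hk.le

end Pool.Agent.EP
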